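import Pool.Agent.H18.QGR.Stmts

set_option autoImplicit false

noncomputable section

namespace Pool.QGR

open Pool.CGR

/-- exchange the letters at the positions `i`, `i + 1` -/
def OPT_sw {m : ℕ} : ℕ → List (Fin m) → List (Fin m)
  | 0, a :: b :: v => b :: a :: v
  | 0, [a] => [a]
  | 0, [] => []
  | _ + 1, [] => []
  | i + 1, a :: v => a :: OPT_sw i v

/-- the factor of the exchange -/
def OPT_cw {m : ℕ} (q : Fin m → Fin m → ℝ) : ℕ → List (Fin m) → ℂ
  | 0, a :: b :: _ => (q a b : ℂ)
  | 0, [_] => 0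
  | 0, [] => 0
  | _ + 1, [] => 0
  | i + 1, _ :: v => OPT_cw q i v

/-- the operator on functions -/
def OPT_tf {m : ℕ} (q : Fin m → Fin m → ℝ) (i : ℕ) (f : List (Fin m) → ℂ) : List (Fin m) → ℂ :=
  fun v => OPT_cw q i v * f (OPT_sw i v)

private lemma OPT_nil {m : ℕ} (q : Fin m → Fin m → ℝ) (i : ℕ) (f : List (Fin m) → ℂ) :
    OPT_tf q i f [] = 0 := by
  cases i <;> simp [OPT_tf, OPT_cw]

private lemma OPT_one {m : ℕ} (q : Fin m → Fin m → ℝ) (i : ℕ) (f : List (Fin m) → ℂ) (a : Fin m) :
    OPT_tf q i f [a] = 0 := by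
  rcases i with _ | i
  · simp [OPT_tf, OPT_cw]
  · cases i <;> simp [OPT_tf, OPT_cw]

private lemma OPT_zero {m : ℕ} (q : Fin m → Fin m → ℝ) (f : List (Fin m) → ℂ) (a b : Fin m)
    (v : List (Fin m)) : OPT_tf q 0 f (a :: b :: v) = (q a b : ℂ) * f (b :: a :: v) := rfl

private lemma OPT_succ {m : ℕ} (q : Fin m → Fin m → ℝ) (i : ℕ) (f : List (Fin m) → ℂ) (a : Fin m)
    (v : List (Fin m)) : OPT_tf q (i + 1) f (a :: v) = OPT_tf q i (fun u => f (a :: u)) v := rfl

private lemma OPT_braid {m : ℕ} (q : Fin m → Fin m → ℝ) (i : ℕ) :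
    ∀ (f : List (Fin m) → ℂ) (v : List (Fin m)),
      OPT_tf q i (OPT_tf q (i + 1) (OPT_tf q i f)) v =
        OPT_tf q (i + 1) (OPT_tf q i (OPT_tf q (i + 1) f)) v := by
  induction i with
  | zero =>
    intro f v
    match v with
    | [] => rw [OPT_nil, OPT_nil]
    | [a] => rw [OPT_one, OPT_one]
    | [a, b] =>
      rw [OPT_zero, OPT_succ, OPT_one, OPT_succ, OPT_one, mul_zero]
    | a :: b :: c :: v =>
      rw [OPT_zero, OPT_succ, OPT_zero, OPT_zero, OPT_succ, OPT_zero, OPT_zero, OPT_succ, OPT_zero]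
      ring
  | succ i ih =>
    intro f v
    match v with
    | [] => rw [OPT_nil, OPT_nil]
    | a :: v => exact ih (fun u => f (a :: u)) v

private lemma OPT_comm {m : ℕ} (q : Fin m → Fin m → ℝ) (i : ℕ) :
    ∀ (j : ℕ) (_ : i + 2 ≤ j) (f : List (Fin m) → ℂ) (v : List (Fin m)),
      OPT_tf q i (OPT_tf q j f) v = OPT_tf q j (OPT_tf q i f) v := by
  induction i with
  | zero =>
    intro j hj f v
    obtain ⟨j, rfl⟩ : ∃ j', j = j' + 2 := ⟨j - 2, by omega⟩
    match v with
    | [] => rw [OPT_nil, OPT_nil]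
    | [a] => rw [OPT_one, OPT_one]
    | a :: b :: v =>
      rw [OPT_zero, OPT_succ, OPT_succ, OPT_succ, OPT_succ]
      show (q a b : ℂ) * (OPT_cw q j v * f (b :: a :: OPT_sw j v)) =
        OPT_cw q j v * ((q a b : ℂ) * f (b :: a :: OPT_sw j v))
      ring
  | succ i ih =>
    intro j hj f v
    obtain ⟨j, rfl⟩ : ∃ j', j = j' + 1 := ⟨j - 1, by omega⟩
    match v with
    | [] => rw [OPT_nil, OPT_nil]
    | a :: v => exact ih j (by omega) (fun u => f (a :: u)) v

private lemma OPT_bd {m : ℕ} (q : Fin m → Fin m → ℝ) (Q : ℝ) (hQ : SQ q Q) (i : ℕ) :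
    ∀ v : List (Fin m), ‖OPT_cw q i v‖ ≤ Q := by
  induction i with
  | zero =>
    intro v
    match v with
    | [] => simpa [OPT_cw] using hQ.nonneg
    | [a] => simpa [OPT_cw] using hQ.nonneg
    | a :: b :: v =>
      show ‖(q a b : ℂ)‖ ≤ Q
      rw [Complex.norm_real, Real.norm_eq_abs]
      exact hQ.bdd a b
  | succ i ih =>
    intro v
    match v with
    | [] => simpa [OPT_cw] using hQ.nonneg
    | a :: v => exact ih v

private lemma OPT_cw0 {m : ℕ} (q : Fin m → Fin m → ℝ) (i : ℕ) :
    ∀ v : List (Fin m), v.length ≤ i + 1 → OPT_cw q i v = 0 := by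
  induction i with
  | zero =>
    intro v hv
    match v with
    | [] => rfl
    | [a] => rfl
    | a :: b :: v => simp at hv
  | succ i ih =>
    intro v hv
    match v with
    | [] => rfl
    | a :: v => exact ih v (by simpa using hv)

private lemma OPT_mid {m : ℕ} (q : Fin m → Fin m → ℝ) (a b : Fin m) (B : List (Fin m)) :
    ∀ A : List (Fin m), OPT_cw q A.length (A ++ a :: b :: B) = (q a b : ℂ) ∧
      OPT_sw A.length (A ++ a :: b :: B) = A ++ b :: a :: B := by
  intro A
  induction A with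
  | nil => exact ⟨rfl, rfl⟩
  | cons c A ih =>
    refine ⟨ih.1, ?_⟩
    show c :: OPT_sw A.length (A ++ a :: b :: B) = c :: (A ++ b :: a :: B)
    rw [ih.2]

private lemma OPT_op {m : ℕ} (c : List (Fin m) → ℂ) (s : List (Fin m) → List (Fin m)) (K : ℝ)
    (hK : 0 ≤ K) (hc : ∀ v, ‖c v‖ ≤ K) :
    ∃ T : Bd m →L[ℂ] Bd m, ‖T‖ ≤ K ∧ ∀ (f : Bd m) (v : List (Fin m)), T f v = c v * f (s v) := by
  have hb : ∀ (f : Bd m) (v : List (Fin m)), ‖c v * f (s v)‖ ≤ K * ‖f‖ := by
    intro f v
    rw [norm_mul]
    exact mul_le_mul (hc v) (lp.norm_apply_le_norm (by simp) f (s v)) (norm_nonneg _) hK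
  let L : Bd m →ₗ[ℂ] Bd m :=
    { toFun := fun f => ⟨fun v => c v * f (s v), memℓp_infty ⟨K * ‖f‖, by
        rintro _ ⟨v, rfl⟩
        exact hb f v⟩⟩
      map_add' := by
        intro f g
        ext v
        show c v * ((f + g : Bd m) (s v)) = c v * f (s v) + c v * g (s v)
        rw [lp.coeFn_add, Pi.add_apply, mul_add]
      map_smul' := by
        intro r f
        ext v
        show c v * ((r • f : Bd m) (s v)) = r • (c v * f (s v))
        rw [lp.coeFn_smul, Pi.smul_apply, smul_eq_mul, smul_eq_mul]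
        ring }
  have hL : ∀ f : Bd m, ‖L f‖ ≤ K * ‖f‖ := by
    intro f
    exact lp.norm_le_of_forall_le (by positivity) (fun v => hb f v)
  exact ⟨L.mkContinuous K hL, L.mkContinuous_norm_le hK hL, fun f v => rfl⟩

theorem opt_thm : OPTStmt := by
  intro m q Q hQ
  choose T hT1 hT2 using fun i : ℕ => OPT_op (OPT_cw q i) (OPT_sw i) Q hQ.nonneg (OPT_bd q Q hQ i)
  have hfun : ∀ (i : ℕ) (f : Bd m), (⇑(T i f) : List (Fin m) → ℂ) = OPT_tf q i ⇑f :=
    fun i f => funext fun v => hT2 i f v
  have hprod : ∀ (k : ℕ) (f : Bd m), ((List.range (k + 1)).reverse.map T).prod f =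
      T k (((List.range k).reverse.map T).prod f) := by
    intro k f
    rw [List.range_succ, List.reverse_append, List.reverse_singleton, List.map_append,
      List.prod_append, List.map_singleton, List.prod_singleton]
    rfl
  refine ⟨T, hT1, ?_, ?_, ?_⟩
  · intro i
    ext f v
    show T i (T (i + 1) (T i f)) v = T (i + 1) (T i (T (i + 1) f)) v
    rw [hfun, hfun, hfun, hfun, hfun, hfun]
    exact OPT_braid q i _ v
  · intro i j hij
    ext f v
    show T i (T j f) v = T j (T i f) v
    rw [hfun, hfun, hfun, hfun]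
    exact OPT_comm q i j hij _ v
  · have key : ∀ (k : ℕ) (f : Bd m) (A : List (Fin m)) (b : Fin m) (B : List (Fin m)),
        A.length = k → (((List.range k).reverse.map T).prod f) (A ++ b :: B) =
          om q b A * f (b :: (A ++ B)) := by
      intro k
      induction k with
      | zero =>
        intro f A b B hA
        obtain rfl := List.length_eq_zero_iff.1 hA
        simp [om]
      | succ k ih =>
        intro f A' b B hA
        obtain ⟨A, a, rfl⟩ : ∃ A a, A' = A ++ [a] := by
          refine ⟨A'.dropLast, A'.getLast ?_, (List.dropLast_append_getLast ?_).symm⟩ <;>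
            (intro h; rw [h] at hA; simp at hA)
        have hk : A.length = k := by simpa using hA
        subst hk
        rw [hprod, hT2, List.append_assoc, List.singleton_append, (OPT_mid q a b B A).1,
          (OPT_mid q a b B A).2, ih f A b (a :: B) rfl, List.append_assoc, List.singleton_append]
        have hom : om q b (A ++ [a]) = om q b A * (q a b : ℂ) := by
          simp [om, hQ.symm a b]
        rw [hom]
        ring
    intro k f v hv
    by_cases h : k < v.length
    · rw [dif_pos h]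
      have h1 : v = v.take k ++ v[k] :: v.drop (k + 1) := by
        rw [← List.drop_eq_getElem_cons h, List.take_append_drop]
      have h2 : (v.take k).length = k := by
        rw [List.length_take]
        omega
      have h3 := key k f (v.take k) v[k] (v.drop (k + 1)) h2
      rw [← h1] at h3
      rw [h3, List.eraseIdx_eq_take_drop_succ]
    · rw [dif_neg h]
      rcases k with _ | k
      · exact absurd (List.length_pos_iff.2 (hv.resolve_left (fun h0 => h0 rfl))) h
      · rw [hprod, hT2, OPT_cw0 q k v (by omega), zero_mul]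

end Pool.QGR
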